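import Pool.Agent.Lib.MP_3ee548_nt.RS.Iface
import Pool.Agent.Lib.MP_3ee548_nt.RS.H02.Caseb

set_option autoImplicit false

open scoped BigOperators

namespace Pool.Agent.Lib.MP_3ee548_nt.RS.H34

open Pool.Agent.Lib.MP_3ee548_nt.RS.H02

/-- far terms of the weighted sum of square roots. -/
theorem h0_far (K m : ℝ) (hK : 1 ≤ K) (hm : 16 * K ^ 2 ≤ m) :
    h0 (Real.sqrt (m / K)) ≤ 1 / m ^ 2 := by
  have hm0 : 0 < m := by nlinarith
  have hK0 : 0 < K := by linarith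
  set z : ℝ := Real.sqrt (m / K) with hz
  have hz0 : 0 < z := Real.sqrt_pos.mpr (by positivity)
  have hz2 : z ^ 2 = m / K := Real.sq_sqrt (by positivity)
  have hz8 : 256 * m ^ 2 ≤ z ^ 8 := by
    have h1 : z ^ 8 = (z ^ 2) ^ 4 := by ring
    rw [h1, hz2, div_pow, le_div_iff₀ (by positivity)]
    have h2 : (16 * K ^ 2) ^ 2 ≤ m ^ 2 := pow_le_pow_left₀ (by positivity) hm 2
    have h3 : m ^ 2 * (16 * K ^ 2) ^ 2 ≤ m ^ 2 * m ^ 2 := mul_le_mul_of_nonneg_left h2 (by positivity)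
    nlinarith [h3]
  have h1 : h0 z ≤ Real.exp (-(3 * z)) := by
    unfold h0
    apply Real.exp_le_exp.mpr
    have : 0 < 1 / z := by positivity
    nlinarith [Real.pi_gt_three]
  refine h1.trans ?_
  have h2 := Real.pow_div_factorial_le_exp (3 * z) (by positivity) 8
  have h3 : (3 * z) ^ 8 / (Nat.factorial 8 : ℝ) = 6561 / 40320 * z ^ 8 := by
    have : (Nat.factorial 8 : ℝ) = 40320 := by norm_num [Nat.factorial]
    rw [this, mul_pow]; norm_num; ring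
  rw [h3] at h2
  rw [Real.exp_neg, ← one_div]
  apply one_div_le_one_div_of_le (by positivity)
  refine le_trans ?_ h2
  nlinarith [hz8, pow_pos hm0 2]

/-- far terms of the sum of reciprocals. -/
theorem H_far (K N m : ℝ) (hK : 1 ≤ K) (hN : 0 < N) (hNK : N ≤ K) (hm : 4 * K ^ 2 ≤ m) :
    H (m / N) ≤ 1 / (3 * K) * (1 / m ^ 2) := by
  have hm0 : 0 < m := by nlinarith
  have hK0 : 0 < K := by linarith
  set z : ℝ := m / K with hz
  have hz0 : 0 < z := by positivity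
  have hmz : m = z * K := by rw [hz]; field_simp
  have hz4 : 4 * K ≤ z := by rw [hz, le_div_iff₀ hK0]; nlinarith
  have h1 : H (m / N) ≤ Real.exp (-(3 * z)) := by
    refine (H_le (m / N) (by positivity)).trans ?_
    apply Real.exp_le_exp.mpr
    have h2 : z ≤ m / N := by
      rw [hz]
      exact div_le_div_of_nonneg_left hm0.le hN hNK
    have h3 : 3 * z ≤ Real.pi * (m / N) :=
      mul_le_mul Real.pi_gt_three.le h2 hz0.le Real.pi_pos.le
    linarith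
  refine h1.trans ?_
  have h2 := Real.pow_div_factorial_le_exp (3 * z) (by positivity) 5
  have h3 : (3 * z) ^ 5 / (Nat.factorial 5 : ℝ) = 243 / 120 * z ^ 5 := by
    have : (Nat.factorial 5 : ℝ) = 120 := by norm_num [Nat.factorial]
    rw [this, mul_pow]; norm_num; ring
  rw [h3] at h2
  have h4 : 3 * K * m ^ 2 ≤ Real.exp (3 * z) := by
    refine le_trans ?_ h2
    have h5 : K ^ 3 ≤ (z / 4) ^ 3 := pow_le_pow_left₀ hK0.le (by linarith) 3
    have h6 : 3 * K * m ^ 2 = 3 * z ^ 2 * K ^ 3 := by rw [hmz]; ring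
    rw [h6]
    have h7 : 3 * z ^ 2 * K ^ 3 ≤ 3 * z ^ 2 * (z / 4) ^ 3 := mul_le_mul_of_nonneg_left h5 (by positivity)
    nlinarith [h7, pow_pos hz0 5]
  rw [Real.exp_neg, ← one_div]
  calc 1 / Real.exp (3 * z) ≤ 1 / (3 * K * m ^ 2) := one_div_le_one_div_of_le (by positivity) h4
    _ = 1 / (3 * K) * (1 / m ^ 2) := by rw [one_div_mul_one_div]

theorem h0_nonneg (z : ℝ) : 0 ≤ h0 z := (Real.exp_pos _).le

theorem pow4_add (x y : ℝ) : (x + y) ^ 4 ≤ 8 * (x ^ 4 + y ^ 4) := by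
  have h6 : (x + y) ^ 2 ≤ 2 * (x ^ 2 + y ^ 2) := by nlinarith [sq_nonneg (x - y)]
  have h7 : ((x + y) ^ 2) ^ 2 ≤ (2 * (x ^ 2 + y ^ 2)) ^ 2 := pow_le_pow_left₀ (sq_nonneg _) h6 2
  nlinarith [sq_nonneg (x ^ 2 - y ^ 2), h7]

theorem casea (h1 : DualStatement) (h2 : HbStatement) (h3 : ApprStatement) (h4 : MaxaStatement)
    (h5 : AbelStatement) : CaseaStatement := by
  obtain ⟨CH, hCH, hHb⟩ := h2
  obtain ⟨CA, hCA, hAp⟩ := h3
  set CT : ℝ := ∑' n : ℕ, 1 / ((n : ℝ) + 1) ^ 2 with hCT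
  have hCTs : Summable (fun n : ℕ => 1 / ((n : ℝ) + 1) ^ 2) := by
    have h := (summable_nat_add_iff 1).mpr (Real.summable_one_div_nat_pow.mpr (one_lt_two))
    refine h.congr ?_
    intro n
    push_cast
    rfl
  have hCT0 : 0 ≤ CT := tsum_nonneg (fun n => by positivity)
  refine ⟨8 * ((2 * CT + CA + 2) ^ 4 + 64 * 27 * CH ^ 4), by positivity, ?_⟩
  intro k t ht1 ht2
  set K : ℝ := (2 : ℝ) ^ k with hK
  have hK1 : 1 ≤ K := one_le_pow₀ (by norm_num)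
  have hK0 : 0 < K := by linarith
  have hK2 : 1 ≤ K ^ 2 := one_le_pow₀ hK1
  have hsK1 : 1 ≤ Real.sqrt K := by
    rw [show (1 : ℝ) = Real.sqrt 1 by simp]
    exact Real.sqrt_le_sqrt hK1
  have hsK0 : 0 < Real.sqrt K := by linarith
  have hsK2 : Real.sqrt K ^ 2 = K := Real.sq_sqrt hK0.le
  have ht0 : 1 ≤ t := by linarith
  have ht0' : 0 < t := by linarith
  have htK : K ≤ t ^ 2 := by rw [← hsK2]; exact pow_le_pow_left₀ hsK0.le ht1 2
  have hK32 : K ^ (3 / 2 : ℝ) = K * Real.sqrt K := by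
    rw [Real.sqrt_eq_rpow, ← Real.rpow_one_add' hK0.le (by norm_num)]
    norm_num
  set N : ℝ := t / (2 * Real.sqrt K) with hN
  have hN0 : 0 < N := by positivity
  have hNh : 1 / 2 ≤ N := by
    rw [hN, div_le_div_iff₀ (by norm_num) (by positivity)]; linarith
  have hNK : N ≤ K := by
    rw [hN, div_le_iff₀ (by positivity)]; rw [hK32] at ht2; linarith
  have hNt : N ≤ t := by
    rw [hN, div_le_iff₀ (by positivity)]
    have := mul_le_mul_of_nonneg_left hsK1 ht0'.le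
    linarith
  have ht22 : t ≤ t ^ 2 := by
    rw [sq]
    have := mul_le_mul_of_nonneg_left ht0 ht0'.le
    linarith
  have hNX : N ≤ t ^ 2 := hNt.trans ht22
  obtain ⟨hEs, hD⟩ := h1 N t hN0 ht0 hNX
  obtain ⟨hAs, hAb⟩ := hAp K t hK1 ht1
  rw [← hN] at hAs hAb
  set c : ℝ := 1 / (16 * K) with hc
  have hc0 : 0 ≤ c := by positivity
  have hc1 : c ≤ 1 := by rw [hc, div_le_one (by positivity)]; linarith
  have hxi : (t ^ 2 - N ^ 2 / t ^ 2) / 4 = t ^ 2 / 4 - c := by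
    rw [hN, hc]
    have : (t / (2 * Real.sqrt K)) ^ 2 = t ^ 2 / (4 * K) := by
      rw [div_pow, mul_pow, hsK2]; norm_num
    rw [this]
    field_simp
    ring
  rw [hxi] at hD
  set g : ℕ → ℂ := fun n => ((H (((n : ℝ) + 1) / N) : ℝ) : ℂ) *
      e ((t ^ 2 / 4 - c) * (1 / ((n : ℝ) + 1))) with hg
  set SS : ℂ := ∑' n : ℕ, g n with hSS
  set DD : ℂ := ∑' mu : ℕ, EE N t ((mu : ℝ) + 1) with hDD
  set f : ℕ → ℂ := fun mu => ((h0 (Real.sqrt (((mu : ℝ) + 1) / K)) : ℝ) : ℂ) *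
      e (t * Real.sqrt ((mu : ℝ) + 1)) with hf
  have hfs : Summable f := by
    have h6 : Summable (fun mu : ℕ => EE N t ((mu : ℝ) + 1)
        - (EE N t ((mu : ℝ) + 1) - f mu)) := hEs.of_norm.sub hAs.of_norm
    refine h6.congr ?_
    intro mu
    ring
  -- the truncated sum
  set J : ℕ := 2 * k + 4 with hJ
  have hM : 1 ≤ 2 ^ J := Nat.one_le_two_pow
  have hMr : ((2 ^ J : ℕ) : ℝ) = 16 * K ^ 2 := by
    push_cast
    rw [hJ, hK, pow_add, pow_mul']; norm_num; ring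
  have hSA : SA k t = ∑ n ∈ Finset.range (2 ^ J - 1), f n := by
    unfold SA
    rw [Finset.sum_Ico_eq_sum_range]
    apply Finset.sum_congr rfl
    intro i _
    rw [hf]
    simp only [sqf]
    push_cast
    rw [add_comm (1 : ℝ) (i : ℝ)]
  have hta : ‖(∑' n : ℕ, f n) - SA k t‖ ≤ CT := by
    have hsplit := hfs.sum_add_tsum_nat_add (2 ^ J - 1)
    rw [← hsplit, hSA, add_sub_cancel_left]
    apply tsum_of_norm_bounded hCTs.hasSum
    intro n
    have hcast : ((n + (2 ^ J - 1) : ℕ) : ℝ) + 1 = (n : ℝ) + 16 * K ^ 2 := by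
      have : n + (2 ^ J - 1) + 1 = n + 2 ^ J := by omega
      have h9 : ((n + (2 ^ J - 1) : ℕ) : ℝ) + 1 = ((n + (2 ^ J - 1) + 1 : ℕ) : ℝ) := by push_cast; ring
      rw [h9, this, Nat.cast_add, hMr]
    have hn0 : (0 : ℝ) ≤ n := Nat.cast_nonneg n
    rw [hf]
    simp only
    rw [hcast, norm_mul, norm_e, mul_one, Complex.norm_real, Real.norm_of_nonneg (h0_nonneg _)]
    refine (h0_far K ((n : ℝ) + 16 * K ^ 2) hK1 (by linarith)).trans ?_
    apply one_div_le_one_div_of_le (by positivity)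
    apply pow_le_pow_left₀ (by positivity)
    linarith
  have htb : ‖DD - ∑' n : ℕ, f n‖ ≤ CA := by
    have h6 : DD - ∑' n : ℕ, f n = ∑' mu : ℕ, (EE N t ((mu : ℝ) + 1) - f mu) :=
      (hEs.of_norm.tsum_sub hfs).symm
    rw [h6]
    exact (norm_tsum_le_tsum_norm hAs).trans hAb
  -- the factor
  have hra : ‖ra N t‖ ≤ t := by
    have hn : ‖ra N t‖ ^ 2 = (t ^ 2 + (N / t) ^ 2) / 2 := by
      rw [← Complex.normSq_eq_norm_sq]
      unfold ra
      rw [Complex.normSq_apply]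
      simp
      ring
    have h6 : N / t ≤ t := by
      rw [div_le_iff₀ ht0', ← sq]; exact hNX
    have h7 : (N / t) ^ 2 ≤ t ^ 2 := pow_le_pow_left₀ (by positivity) h6 2
    have h8 : ‖ra N t‖ ^ 2 ≤ t ^ 2 := by rw [hn]; linarith
    exact le_of_pow_le_pow_left₀ (by norm_num) ht0'.le h8
  set A : ℝ := t * N ^ (-(3 / 2) : ℝ) with hA
  have hNp : 0 < N ^ (-(3 / 2) : ℝ) := Real.rpow_pos_of_pos hN0 _
  have hA0 : 0 < A := by positivity
  have hA4 : A ^ 4 = 64 * (K ^ 3 / t ^ 2) := by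
    have h6 : (N ^ (-(3 / 2) : ℝ)) ^ 4 = 1 / N ^ 6 := by
      rw [← Real.rpow_natCast (N ^ (-(3 / 2) : ℝ)) 4, ← Real.rpow_mul hN0.le]
      rw [show (-(3 / 2) : ℝ) * ((4 : ℕ) : ℝ) = -((6 : ℕ) : ℝ) by norm_num, Real.rpow_neg hN0.le,
        Real.rpow_natCast, one_div]
    have h7 : N ^ 6 = t ^ 6 / (64 * K ^ 3) := by
      rw [hN, div_pow, mul_pow]
      have : Real.sqrt K ^ 6 = (Real.sqrt K ^ 2) ^ 3 := by ring
      rw [this, hsK2]; norm_num
    rw [hA, mul_pow, h6, h7]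
    field_simp
  have hA3 : A ≤ 3 * K := by
    have h6 : A ^ 4 ≤ (3 * K) ^ 4 := by
      rw [hA4]
      have h7 : K ^ 3 / t ^ 2 ≤ K ^ 2 := by
        rw [div_le_iff₀ (by positivity)]
        have := mul_le_mul_of_nonneg_left htK (sq_nonneg K)
        have h8 : K ^ 3 = K ^ 2 * K := by ring
        linarith
      have h8 : K ^ 2 ≤ K ^ 4 := pow_le_pow_right₀ hK1 (by norm_num)
      have h9 : (3 * K) ^ 4 = 81 * K ^ 4 := by ring
      rw [h9]
      have : 0 < K ^ 4 := by positivity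
      linarith
    exact le_of_pow_le_pow_left₀ (by norm_num) (by positivity) h6
  have hDDb : ‖DD‖ ≤ A * ‖SS‖ + 2 := by
    have h6 : ‖DD‖ ≤ ‖ra N t * ((N ^ (-(3 / 2) : ℝ) : ℝ) : ℂ) * SS‖ + 2 := by
      calc ‖DD‖ = ‖ra N t * ((N ^ (-(3 / 2) : ℝ) : ℝ) : ℂ) * SS
            - (ra N t * ((N ^ (-(3 / 2) : ℝ) : ℝ) : ℂ) * SS - DD)‖ := by congr 1; ring
        _ ≤ ‖ra N t * ((N ^ (-(3 / 2) : ℝ) : ℝ) : ℂ) * SS‖
            + ‖ra N t * ((N ^ (-(3 / 2) : ℝ) : ℝ) : ℂ) * SS - DD‖ := norm_sub_le _ _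
        _ ≤ _ := by linarith
    refine h6.trans ?_
    rw [norm_mul, norm_mul, Complex.norm_real, Real.norm_of_nonneg hNp.le]
    have h7 : ‖ra N t‖ * N ^ (-(3 / 2) : ℝ) * ‖SS‖ ≤ t * N ^ (-(3 / 2) : ℝ) * ‖SS‖ := by
      apply mul_le_mul_of_nonneg_right _ (norm_nonneg _)
      exact mul_le_mul_of_nonneg_right hra hNp.le
    linarith
  -- split the sum of reciprocals
  set L : ℕ := 2 * k + 2 with hL
  have hML : 1 ≤ 2 ^ L := Nat.one_le_two_pow
  have hMLr : ((2 ^ L : ℕ) : ℝ) = 4 * K ^ 2 := by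
    push_cast
    rw [hL, hK, pow_add, pow_mul']; norm_num; ring
  set G : ℕ → ℂ := fun m => ((H ((m : ℝ) / N) : ℝ) : ℂ) * e ((t ^ 2 / 4 - c) * (1 / (m : ℝ))) with hG
  have hgG : ∀ n : ℕ, g n = G (n + 1) := by
    intro n
    rw [hg, hG]
    push_cast
    rfl
  set S0 : ℂ := ∑ m ∈ Finset.Ico (1 : ℕ) (2 ^ L), G m with hS0
  have hgn : ∀ n : ℕ, ‖g n‖ = H (((n : ℝ) + 1) / N) := by
    intro n
    rw [hg]
    simp only
    rw [norm_mul, norm_e, mul_one, Complex.norm_real, Real.norm_of_nonneg (H_nonneg _ (by positivity))]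
  have hfar : ∀ n : ℕ, ‖g (n + (2 ^ L - 1))‖ ≤ 1 / (3 * K) * (1 / ((n : ℝ) + 1) ^ 2) := by
    intro n
    rw [hgn]
    have hcast : ((n + (2 ^ L - 1) : ℕ) : ℝ) + 1 = (n : ℝ) + 4 * K ^ 2 := by
      have : n + (2 ^ L - 1) + 1 = n + 2 ^ L := by omega
      have h9 : ((n + (2 ^ L - 1) : ℕ) : ℝ) + 1 = ((n + (2 ^ L - 1) + 1 : ℕ) : ℝ) := by push_cast; ring
      rw [h9, this, Nat.cast_add, hMLr]
    have hn0 : (0 : ℝ) ≤ n := Nat.cast_nonneg n
    rw [hcast]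
    refine (H_far K N ((n : ℝ) + 4 * K ^ 2) hK1 hN0 hNK (by linarith)).trans ?_
    apply mul_le_mul_of_nonneg_left _ (by positivity)
    apply one_div_le_one_div_of_le (by positivity)
    apply pow_le_pow_left₀ (by positivity)
    linarith
  have hfs2 : Summable (fun n : ℕ => g (n + (2 ^ L - 1))) :=
    Summable.of_norm_bounded (hCTs.mul_left (1 / (3 * K))) hfar
  have hgs : Summable g := (summable_nat_add_iff (2 ^ L - 1)).mp hfs2
  have hSSb : ‖SS‖ ≤ ‖S0‖ + 1 / (3 * K) * CT := by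
    have hsplit := hgs.sum_add_tsum_nat_add (2 ^ L - 1)
    have hS0' : S0 = ∑ n ∈ Finset.range (2 ^ L - 1), g n := by
      rw [hS0, Finset.sum_Ico_eq_sum_range]
      apply Finset.sum_congr rfl
      intro i _
      rw [hgG, add_comm 1 i]
    rw [hSS, ← hsplit, ← hS0']
    refine (norm_add_le _ _).trans ?_
    have : ‖∑' n : ℕ, g (n + (2 ^ L - 1))‖ ≤ 1 / (3 * K) * CT :=
      tsum_of_norm_bounded (hCTs.hasSum.mul_left (1 / (3 * K))) hfar
    linarith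
  -- block sums
  set d : ℕ → ℝ := fun j => Real.exp (-((2 : ℝ) ^ (j + 1) * Real.sqrt K / t
        + t / ((2 : ℝ) ^ (j + 1) * Real.sqrt K))) with hd
  set P : ℕ → ℝ := fun j => (Bmax rcp j (t ^ 2 / 4)) ^ (1 / 4 : ℝ) with hP
  have hP0 : ∀ j, 0 ≤ P j := fun j => Real.rpow_nonneg (Bmax_nonneg _ _ _) _
  have hP4 : ∀ j, P j ^ 4 = Bmax rcp j (t ^ 2 / 4) := by
    intro j
    rw [hP]
    simp only
    rw [← Real.rpow_natCast ((Bmax rcp j (t ^ 2 / 4)) ^ (1 / 4 : ℝ)) 4, ← Real.rpow_mul (Bmax_nonneg _ _ _)]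
    norm_num
  have hd0 : ∀ j, 0 ≤ d j := fun j => (Real.exp_pos _).le
  have hde : ∀ j : ℕ, Real.exp (-((2 : ℝ) ^ j / N + N / (2 : ℝ) ^ j)) = d j := by
    intro j
    rw [hd, hN]
    simp only
    congr 1
    rw [pow_succ]
    field_simp
  have hblk : ∀ j, ‖∑ m ∈ blk j, G m‖ ≤ CH * (d j * P j) := by
    intro j
    have hab := h5 j (fun m => ((H ((m : ℝ) / N) : ℝ) : ℂ) * e (-(c / m)))
      (fun m => e (t ^ 2 / 4 * rcp m)) (P j) (by
      intro n hn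
      have hmx := h4 rcp j n (t ^ 2 / 4) hn
      rw [← hP4 j] at hmx
      exact le_of_pow_le_pow_left₀ (by norm_num) (hP0 j) hmx)
    have hw := hHb N c j hNh hc0 hc1
    rw [hde j] at hw
    have heq : ∑ m ∈ blk j, G m
        = ∑ m ∈ blk j, (((H ((m : ℝ) / N) : ℝ) : ℂ) * e (-(c / m))) * e (t ^ 2 / 4 * rcp m) := by
      apply Finset.sum_congr rfl
      intro m _
      rw [mul_assoc, ← e_add, hG]
      simp only [rcp]
      congr 2
      ring
    rw [heq]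
    refine hab.trans ?_
    calc P j * BVn (fun m => ((H ((m : ℝ) / N) : ℝ) : ℂ) * e (-(c / m))) j ≤ P j * (CH * d j) :=
          mul_le_mul_of_nonneg_left hw (hP0 j)
      _ = CH * (d j * P j) := by ring
  have hS0b : ‖S0‖ ≤ CH * ∑ j ∈ Finset.range L, d j * P j := by
    rw [hS0, sum_blk, Finset.mul_sum]
    exact (norm_sum_le _ _).trans (Finset.sum_le_sum (fun j _ => hblk j))
  have hds : ∑ j ∈ Finset.range L, d j ≤ 3 := by
    have hgm := sum_exp_geom (2 * Real.sqrt K / t) 2 (by positivity) (by norm_num) L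
    have hce : ∀ j, d j = Real.exp (-(2 * Real.sqrt K / t * 2 ^ j
        + 1 / (2 * Real.sqrt K / t * 2 ^ j))) := by
      intro j
      rw [hd]
      simp only
      congr 1
      rw [pow_succ]
      field_simp
    simp_rw [hce]
    refine hgm.trans ?_
    norm_num
  have hds0 : 0 ≤ ∑ j ∈ Finset.range L, d j := Finset.sum_nonneg (fun j _ => hd0 j)
  have hho := hoelder4 L d P hd0 hP0
  set B : ℝ := ∑ j ∈ Finset.range L, d j * Bmax rcp j (t ^ 2 / 4) with hB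
  have hB0 : 0 ≤ B := Finset.sum_nonneg (fun j _ => mul_nonneg (hd0 j) (Bmax_nonneg _ _ _))
  have hBe : ∑ j ∈ Finset.range L, d j * P j ^ 4 = B := by
    rw [hB]; apply Finset.sum_congr rfl; intro j _; rw [hP4]
  rw [hBe] at hho
  have hS04 : ‖S0‖ ^ 4 ≤ CH ^ 4 * 27 * B := by
    calc ‖S0‖ ^ 4 ≤ (CH * ∑ j ∈ Finset.range L, d j * P j) ^ 4 :=
          pow_le_pow_left₀ (norm_nonneg _) hS0b 4
      _ = CH ^ 4 * (∑ j ∈ Finset.range L, d j * P j) ^ 4 := by ring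
      _ ≤ CH ^ 4 * ((∑ j ∈ Finset.range L, d j) ^ 3 * B) :=
          mul_le_mul_of_nonneg_left hho (by positivity)
      _ ≤ CH ^ 4 * (3 ^ 3 * B) := by
          apply mul_le_mul_of_nonneg_left _ (by positivity)
          apply mul_le_mul_of_nonneg_right _ hB0
          exact pow_le_pow_left₀ hds0 hds 3
      _ = CH ^ 4 * 27 * B := by ring
  -- final assembly
  have hfin : ‖SA k t‖ ≤ A * ‖S0‖ + (2 * CT + CA + 2) := by
    have h6 : ‖SA k t‖ ≤ ‖DD‖ + CA + CT := by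
      calc ‖SA k t‖ = ‖DD - (DD - ∑' n : ℕ, f n) - ((∑' n : ℕ, f n) - SA k t)‖ := by congr 1; ring
        _ ≤ ‖DD - (DD - ∑' n : ℕ, f n)‖ + ‖(∑' n : ℕ, f n) - SA k t‖ := norm_sub_le _ _
        _ ≤ ‖DD‖ + ‖DD - ∑' n : ℕ, f n‖ + ‖(∑' n : ℕ, f n) - SA k t‖ := by
            gcongr
            exact norm_sub_le _ _
        _ ≤ ‖DD‖ + CA + CT := by linarith
    have h7 : A * ‖SS‖ ≤ A * ‖S0‖ + CT := by
      have h8 : A * (1 / (3 * K) * CT) ≤ CT := by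
        have h9 : A * (1 / (3 * K)) ≤ 1 := by
          rw [mul_one_div, div_le_one (by positivity)]; exact hA3
        calc A * (1 / (3 * K) * CT) = (A * (1 / (3 * K))) * CT := by ring
          _ ≤ 1 * CT := mul_le_mul_of_nonneg_right h9 hCT0
          _ = CT := one_mul _
      calc A * ‖SS‖ ≤ A * (‖S0‖ + 1 / (3 * K) * CT) := mul_le_mul_of_nonneg_left hSSb hA0.le
        _ = A * ‖S0‖ + A * (1 / (3 * K) * CT) := by ring
        _ ≤ A * ‖S0‖ + CT := by linarith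
    linarith
  have hR0 : 0 ≤ K ^ 3 / t ^ 2 := by positivity
  calc ‖SA k t‖ ^ 4 ≤ (A * ‖S0‖ + (2 * CT + CA + 2)) ^ 4 := pow_le_pow_left₀ (norm_nonneg _) hfin 4
    _ ≤ 8 * ((A * ‖S0‖) ^ 4 + (2 * CT + CA + 2) ^ 4) := pow4_add _ _
    _ = 8 * (A ^ 4 * ‖S0‖ ^ 4 + (2 * CT + CA + 2) ^ 4) := by ring
    _ ≤ 8 * (A ^ 4 * (CH ^ 4 * 27 * B) + (2 * CT + CA + 2) ^ 4) := by
        have := mul_le_mul_of_nonneg_left hS04 (show 0 ≤ A ^ 4 by positivity)
        linarith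
    _ = 8 * ((2 * CT + CA + 2) ^ 4 * 1 + 64 * 27 * CH ^ 4 * (K ^ 3 / t ^ 2 * B)) := by
        rw [hA4]; ring
    _ ≤ 8 * ((2 * CT + CA + 2) ^ 4 * (1 + K ^ 3 / t ^ 2 * B)
          + 64 * 27 * CH ^ 4 * (1 + K ^ 3 / t ^ 2 * B)) := by
        have h6 : 0 ≤ K ^ 3 / t ^ 2 * B := mul_nonneg hR0 hB0
        have h7 : 0 ≤ (2 * CT + CA + 2) ^ 4 := by positivity
        have h8 : 0 ≤ 64 * 27 * CH ^ 4 := by positivity
        have h9 : (2 * CT + CA + 2) ^ 4 * 1 ≤ (2 * CT + CA + 2) ^ 4 * (1 + K ^ 3 / t ^ 2 * B) :=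
          mul_le_mul_of_nonneg_left (by linarith) h7
        have h10 : 64 * 27 * CH ^ 4 * (K ^ 3 / t ^ 2 * B) ≤ 64 * 27 * CH ^ 4 * (1 + K ^ 3 / t ^ 2 * B) :=
          mul_le_mul_of_nonneg_left (by linarith) h8
        linarith
    _ = 8 * ((2 * CT + CA + 2) ^ 4 + 64 * 27 * CH ^ 4) * (1 + K ^ 3 / t ^ 2 * B) := by ring

end Pool.Agent.Lib.MP_3ee548_nt.RS.H34
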